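import Pool.Agent.OMG.Defs

/-!
# MP_e44ca4_nt: the Riemann hypothesis for `L(s, chi_-4)` and the weighted means, definitions
-/

set_option autoImplicit false

open Complex Finset Filter Topology MeasureTheory

namespace Pool.OMM

open Pool.OMG

/-- the Riemann hypothesis for `L(s, chi_-4)` -/
def GRH : Prop := ∀ s : ℂ, 1 / 2 < s.re → Lf s ≠ 0

/-- the weighted mean of `S_3 - S_1` -/
noncomputable def Mn (s : ℝ) (k : ℕ) : ℝ :=
  ∫ x in Set.Ioi (1 : ℝ), (S 3 x - S 1 x) * Real.log x ^ k * x ^ (-s - 1)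

end Pool.OMM
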