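import Pool.Agent.OMG.Zer

/-!
# OMM ZFD: `L(s, chi_-4)` has no zero in the closed discs `|z - c| <= c - 1/2`, `1/2 <= c <= 45`

`(1 + 3^(-s)) L(s) = 1 + sum_i ((12i+5)^(-s) - (12i+7)^(-s) - (12i+11)^(-s) + (12i+13)^(-s))`, so
`|(1 + 3^(-s)) L(s) - 1| <= |s| 3^(-sigma) / (3 sigma)`, which is less than 1 in these discs.
-/

set_option autoImplicit false

open Complex Finset Filter Topology MeasureTheory

namespace Pool.OMM

open Pool.OMG

/-- the mean value estimate for `x^(-s)` -/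
theorem cpow_sub_le {s : ℂ} (hs : 0 < s.re) {a b : ℝ} (ha : 0 < a) (hab : a ≤ b) :
    ‖(a : ℂ) ^ (-s) - (b : ℂ) ^ (-s)‖ ≤ ‖s‖ / s.re * (a ^ (-s.re) - b ^ (-s.re)) := by
  have hs0 : s ≠ 0 := by rintro rfl; simp at hs
  have hder : ∀ x ∈ Set.Icc a b, HasDerivAt (fun x : ℝ => (x : ℂ) ^ (-s) - (a : ℂ) ^ (-s))
      (-s * (x : ℂ) ^ (-s - 1)) x := by
    intro x hx
    have hx0 : 0 < x := lt_of_lt_of_le ha hx.1
    exact (hasDerivAt_ofReal_cpow_const (x := x) hx0.ne' (r := -s)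
      (neg_ne_zero.mpr hs0)).sub_const _
  have hB : ∀ x ∈ Set.Icc a b, HasDerivAt
      (fun x : ℝ => ‖s‖ / s.re * (a ^ (-s.re) - x ^ (-s.re))) (‖s‖ * x ^ (-s.re - 1)) x := by
    intro x hx
    have hx0 : 0 < x := lt_of_lt_of_le ha hx.1
    have h1 := (Real.hasDerivAt_rpow_const (x := x) (p := -s.re) (Or.inl hx0.ne'))
    have h2 := (h1.const_sub (a ^ (-s.re))).const_mul (‖s‖ / s.re)
    have h3 := hs.ne'
    exact h2.congr_deriv (by rw [neg_mul, neg_neg, ← mul_assoc, div_mul_cancel₀ _ h3])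
  have h := image_norm_le_of_norm_deriv_right_le_deriv_boundary'
    (f := fun x : ℝ => (x : ℂ) ^ (-s) - (a : ℂ) ^ (-s)) (a := a) (b := b)
    (f' := fun x => -s * (x : ℂ) ^ (-s - 1))
    (B := fun x : ℝ => ‖s‖ / s.re * (a ^ (-s.re) - x ^ (-s.re)))
    (B' := fun x => ‖s‖ * x ^ (-s.re - 1))
    (fun x hx => (hder x hx).continuousAt.continuousWithinAt)
    (fun x hx => (hder x ⟨hx.1, hx.2.le⟩).hasDerivWithinAt) (by simp)
    (fun x hx => (hB x hx).continuousAt.continuousWithinAt)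
    (fun x hx => (hB x ⟨hx.1, hx.2.le⟩).hasDerivWithinAt)
    (fun x hx => by
      have hx0 : 0 < x := lt_of_lt_of_le ha hx.1
      rw [norm_mul, norm_neg, Complex.norm_cpow_eq_rpow_re_of_pos hx0]
      simp)
  have h2 := h (Set.right_mem_Icc.mpr hab)
  rw [norm_sub_rev]
  exact h2

/-- monotonicity of `(a-t)^p + (a+t)^p`, `p < 0` -/
theorem sym_mono {a p : ℝ} (hp : p < 0) :
    MonotoneOn (fun t : ℝ => (a - t) ^ p + (a + t) ^ p) (Set.Ico 0 a) := by
  have hd : ∀ t ∈ Set.Ico 0 a, HasDerivAt (fun t : ℝ => (a - t) ^ p + (a + t) ^ p)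
      (-(p * (a - t) ^ (p - 1)) + p * (a + t) ^ (p - 1)) t := by
    intro t ht
    have h1 : 0 < a - t := by linarith [ht.2]
    have h2 : 0 < a + t := by linarith [ht.1, ht.2]
    have d1 := ((hasDerivAt_id t).const_sub a).rpow_const (p := p) (Or.inl h1.ne')
    have d2 := ((hasDerivAt_id t).const_add a).rpow_const (p := p) (Or.inl h2.ne')
    exact (d1.add d2).congr_deriv (by simp only [id]; ring)
  refine monotoneOn_of_deriv_nonneg (convex_Ico 0 a)
    (fun t ht => (hd t ht).continuousAt.continuousWithinAt)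
    (fun t ht => (hd t (interior_subset ht)).differentiableAt.differentiableWithinAt) ?_
  intro t ht
  have ht' := interior_subset ht
  rw [(hd t ht').deriv]
  have h1 : 0 < a - t := by linarith [ht'.2]
  have h3 : (a + t) ^ (p - 1) ≤ (a - t) ^ (p - 1) :=
    Real.rpow_le_rpow_of_nonpos h1 (by linarith [ht'.1]) (by linarith)
  nlinarith

/-- the comparison of short and long differences -/
theorem short_long {a σ : ℝ} (hσ : 0 < σ) (ha : 3 < a) :
    3 * ((a - 1) ^ (-σ) - (a + 1) ^ (-σ)) ≤ (a - 3) ^ (-σ) - (a + 3) ^ (-σ) := by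
  set ψ : ℝ → ℝ := fun t => ((a - 3 * t) ^ (-σ) - (a + 3 * t) ^ (-σ)) -
    3 * ((a - t) ^ (-σ) - (a + t) ^ (-σ)) with hψ
  have hd : ∀ t ∈ Set.Icc (0 : ℝ) 1, HasDerivAt ψ
      (3 * σ * (((a - 3 * t) ^ (-σ - 1) + (a + 3 * t) ^ (-σ - 1)) -
        ((a - t) ^ (-σ - 1) + (a + t) ^ (-σ - 1)))) t := by
    intro t ht
    have h1 : 0 < a - 3 * t := by linarith [ht.2]
    have h2 : 0 < a + 3 * t := by linarith [ht.1]
    have h3 : 0 < a - t := by linarith [ht.2]
    have h4 : 0 < a + t := by linarith [ht.1]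
    have e1 := (((hasDerivAt_id t).const_mul 3).const_sub a).rpow_const (p := -σ)
      (Or.inl (by simpa using h1.ne'))
    have e2 := (((hasDerivAt_id t).const_mul 3).const_add a).rpow_const (p := -σ)
      (Or.inl (by simpa using h2.ne'))
    have e3 := ((hasDerivAt_id t).const_sub a).rpow_const (p := -σ) (Or.inl h3.ne')
    have e4 := ((hasDerivAt_id t).const_add a).rpow_const (p := -σ) (Or.inl h4.ne')
    exact ((e1.sub e2).sub ((e3.sub e4).const_mul 3)).congr_deriv (by simp only [id]; ring)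
  have hmono : MonotoneOn ψ (Set.Icc 0 1) := by
    refine monotoneOn_of_deriv_nonneg (convex_Icc 0 1)
      (fun t ht => (hd t ht).continuousAt.continuousWithinAt)
      (fun t ht => (hd t (interior_subset ht)).differentiableAt.differentiableWithinAt) ?_
    intro t ht
    have ht' := interior_subset ht
    rw [(hd t ht').deriv]
    have hm := sym_mono (a := a) (p := -σ - 1) (by linarith)
      (show t ∈ Set.Ico 0 a from ⟨ht'.1, by linarith [ht'.2]⟩)
      (show 3 * t ∈ Set.Ico 0 a from ⟨by linarith [ht'.1], by linarith [ht'.2]⟩)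
      (by linarith [ht'.1])
    simp only at hm
    have : 0 ≤ ((a - 3 * t) ^ (-σ - 1) + (a + 3 * t) ^ (-σ - 1)) -
        ((a - t) ^ (-σ - 1) + (a + t) ^ (-σ - 1)) := by linarith
    positivity
  have h := hmono (Set.left_mem_Icc.mpr zero_le_one) (Set.right_mem_Icc.mpr zero_le_one) zero_le_one
  simp only [hψ, mul_zero, sub_zero, add_zero, mul_one, sub_self] at h
  linarith

private noncomputable def f (s : ℂ) (n : ℝ) : ℂ := (n : ℂ) ^ (-s)

private theorem f_three {s : ℂ} (c : ℝ) (hc : 0 ≤ c) : (3 : ℂ) ^ (-s) * f s c = f s (3 * c) := by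
  unfold f
  rw [Complex.ofReal_mul, Complex.mul_cpow_ofReal_nonneg (by norm_num) hc]
  push_cast
  rfl

private theorem partial_id (s : ℂ) (m : ℕ) :
    ∑ k ∈ range (3 * m), (f s (4 * k + 1) - f s (4 * k + 3)) +
      (3 : ℂ) ^ (-s) * ∑ k ∈ range m, (f s (4 * k + 1) - f s (4 * k + 3)) =
    1 + ∑ i ∈ range m, ((f s (12 * i + 5) - f s (12 * i + 7)) -
      (f s (12 * i + 11) - f s (12 * i + 13))) - f s (12 * m + 1) := by
  induction m with
  | zero => simp [f]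
  | succ m ih =>
    rw [show 3 * (m + 1) = 3 * m + 1 + 1 + 1 by ring, sum_range_succ, sum_range_succ, sum_range_succ,
      sum_range_succ, sum_range_succ, mul_add, mul_sub,
      f_three (4 * (m : ℝ) + 1) (by positivity), f_three (4 * (m : ℝ) + 3) (by positivity)]
    have h := ih
    rw [show (3 * (4 * (m : ℝ) + 1)) = 12 * m + 3 by ring,
      show (3 * (4 * (m : ℝ) + 3)) = 12 * m + 9 by ring]
    push_cast
    rw [show (4 * (3 * (m : ℝ)) + 1) = 12 * m + 1 by ring,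
      show (4 * (3 * (m : ℝ)) + 3) = 12 * m + 3 by ring,
      show (4 * (3 * (m : ℝ) + 1) + 1) = 12 * m + 5 by ring,
      show (4 * (3 * (m : ℝ) + 1) + 3) = 12 * m + 7 by ring,
      show (4 * (3 * (m : ℝ) + 2) + 1) = 12 * m + 9 by ring,
      show (4 * (3 * (m : ℝ) + 2) + 3) = 12 * m + 11 by ring,
      show (12 * ((m : ℝ) + 1) + 1) = 12 * m + 13 by ring]
    linear_combination h

private theorem sum_bound {s : ℂ} (hs : 0 < s.re) (m : ℕ) :
    ‖∑ i ∈ range m, ((f s (12 * i + 5) - f s (12 * i + 7)) -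
      (f s (12 * i + 11) - f s (12 * i + 13)))‖ ≤
    ‖s‖ / s.re * (((3 : ℝ) ^ (-s.re) - (12 * (m : ℝ) + 3) ^ (-s.re)) / 3) := by
  induction m with
  | zero => simp
  | succ m ih =>
    rw [sum_range_succ]
    refine (norm_add_le _ _).trans ?_
    have hm : (0 : ℝ) ≤ m := m.cast_nonneg
    have h1 := cpow_sub_le hs (a := 12 * (m : ℝ) + 5) (b := 12 * m + 7) (by positivity) (by linarith)
    have h2 := cpow_sub_le hs (a := 12 * (m : ℝ) + 11) (b := 12 * m + 13) (by positivity)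
      (by linarith)
    have h3 := short_long hs (a := 12 * (m : ℝ) + 6) (by linarith)
    have h4 := short_long hs (a := 12 * (m : ℝ) + 12) (by linarith)
    rw [show 12 * (m : ℝ) + 6 - 1 = 12 * m + 5 by ring, show 12 * (m : ℝ) + 6 + 1 = 12 * m + 7 by ring,
      show 12 * (m : ℝ) + 6 - 3 = 12 * m + 3 by ring,
      show 12 * (m : ℝ) + 6 + 3 = 12 * m + 9 by ring] at h3
    rw [show 12 * (m : ℝ) + 12 - 1 = 12 * m + 11 by ring,
      show 12 * (m : ℝ) + 12 + 1 = 12 * m + 13 by ring,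
      show 12 * (m : ℝ) + 12 - 3 = 12 * m + 9 by ring,
      show 12 * (m : ℝ) + 12 + 3 = 12 * m + 15 by ring] at h4
    have hc : 0 ≤ ‖s‖ / s.re := div_nonneg (norm_nonneg _) hs.le
    have h5 : ‖(f s (12 * m + 5) - f s (12 * m + 7)) - (f s (12 * m + 11) - f s (12 * m + 13))‖ ≤
        ‖s‖ / s.re * ((12 * (m : ℝ) + 5) ^ (-s.re) - (12 * (m : ℝ) + 7) ^ (-s.re)) +
        ‖s‖ / s.re * ((12 * (m : ℝ) + 11) ^ (-s.re) - (12 * (m : ℝ) + 13) ^ (-s.re)) :=
      (norm_sub_le _ _).trans (add_le_add h1 h2)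
    have h6 : ((12 * (m : ℝ) + 5) ^ (-s.re) - (12 * (m : ℝ) + 7) ^ (-s.re)) +
        ((12 * (m : ℝ) + 11) ^ (-s.re) - (12 * (m : ℝ) + 13) ^ (-s.re)) ≤
        ((12 * (m : ℝ) + 3) ^ (-s.re) - (12 * (m : ℝ) + 15) ^ (-s.re)) / 3 := by linarith
    have h7 := mul_le_mul_of_nonneg_left h6 hc
    push_cast
    rw [show (12 * ((m : ℝ) + 1) + 3) = 12 * m + 15 by ring]
    calc _ ≤ ‖s‖ / s.re * (((3 : ℝ) ^ (-s.re) - (12 * (m : ℝ) + 3) ^ (-s.re)) / 3) +
        (‖s‖ / s.re * ((12 * (m : ℝ) + 5) ^ (-s.re) - (12 * (m : ℝ) + 7) ^ (-s.re)) +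
        ‖s‖ / s.re * ((12 * (m : ℝ) + 11) ^ (-s.re) - (12 * (m : ℝ) + 13) ^ (-s.re))) :=
          add_le_add ih h5
      _ ≤ _ := by
          rw [← mul_add]
          refine (add_le_add_right h7 _).trans (le_of_eq ?_)
          ring

theorem near_one {s : ℂ} (hs : 0 < s.re) :
    ‖(1 + (3 : ℂ) ^ (-s)) * Lf s - 1‖ ≤ ‖s‖ / s.re * ((3 : ℝ) ^ (-s.re) / 3) := by
  have hser := (Lf_series hs).tendsto_sum_nat
  have hser' : Tendsto (fun n : ℕ => ∑ k ∈ range n, (f s (4 * k + 1) - f s (4 * k + 3))) atTop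
      (𝓝 (Lf s)) := by
    refine hser.congr fun n => sum_congr rfl fun k _ => ?_
    unfold f
    push_cast
    rfl
  have h3m : Tendsto (fun m : ℕ => 3 * m) atTop atTop :=
    tendsto_id.const_mul_atTop' (by norm_num)
  have h1 := (hser'.comp h3m).add (hser'.const_mul ((3 : ℂ) ^ (-s)))
  have hf0 : Tendsto (fun m : ℕ => f s (12 * m + 1)) atTop (𝓝 0) := by
    rw [tendsto_zero_iff_norm_tendsto_zero]
    have h2 : Tendsto (fun m : ℕ => (12 * (m : ℝ) + 1)) atTop atTop :=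
      tendsto_atTop_add_const_right _ _
        (tendsto_natCast_atTop_atTop.const_mul_atTop (by norm_num : (0 : ℝ) < 12))
    have h3 := (tendsto_rpow_neg_atTop hs).comp h2
    refine h3.congr fun m => ?_
    unfold f
    rw [Complex.norm_cpow_eq_rpow_re_of_pos (by positivity)]
    simp
  have h2 : Tendsto (fun m : ℕ => (∑ k ∈ range (3 * m), (f s (4 * k + 1) - f s (4 * k + 3)) +
      (3 : ℂ) ^ (-s) * ∑ k ∈ range m, (f s (4 * k + 1) - f s (4 * k + 3))) - 1 +
        f s (12 * m + 1)) atTop (𝓝 (Lf s + (3 : ℂ) ^ (-s) * Lf s - 1 + 0)) :=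
    (h1.sub_const 1).add hf0
  have h3 : (1 + (3 : ℂ) ^ (-s)) * Lf s - 1 = Lf s + (3 : ℂ) ^ (-s) * Lf s - 1 + 0 := by ring
  rw [h3]
  refine le_of_tendsto h2.norm (Filter.Eventually.of_forall fun m => ?_)
  rw [partial_id s m]
  have h4 := sum_bound hs m
  have h5 : (1 + ∑ i ∈ range m, ((f s (12 * i + 5) - f s (12 * i + 7)) -
      (f s (12 * i + 11) - f s (12 * i + 13))) - f s (12 * m + 1)) - 1 + f s (12 * m + 1) =
      ∑ i ∈ range m, ((f s (12 * i + 5) - f s (12 * i + 7)) -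
      (f s (12 * i + 11) - f s (12 * i + 13))) := by ring
  rw [h5]
  refine h4.trans ?_
  have hc : 0 ≤ ‖s‖ / s.re := div_nonneg (norm_nonneg _) hs.le
  refine mul_le_mul_of_nonneg_left ?_ hc
  have : 0 ≤ (12 * (m : ℝ) + 3) ^ (-s.re) := by positivity
  linarith

theorem ne_zero_of_norm_lt {s : ℂ} (hs : 0 < s.re) (h : ‖s‖ < 3 * s.re * (3 : ℝ) ^ s.re) :
    Lf s ≠ 0 := by
  intro h0
  have h1 := near_one hs
  rw [h0, mul_zero, zero_sub, norm_neg, norm_one] at h1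
  have h3 : (0 : ℝ) < (3 : ℝ) ^ s.re := by positivity
  rw [Real.rpow_neg (by norm_num)] at h1
  have h4 : ‖s‖ / s.re * (((3 : ℝ) ^ s.re)⁻¹ / 3) = ‖s‖ / (3 * s.re * (3 : ℝ) ^ s.re) := by
    field_simp
  rw [h4, le_div_iff₀ (by positivity)] at h1
  linarith

/-- the lower bound for `3^sigma` -/
theorem nine_bound {x : ℝ} (hx : 0 ≤ x) :
    3 * (1 + 2 * x + 2 * x ^ 2) ≤ ((3 : ℝ) ^ (x + 1 / 2)) ^ 2 := by
  have e1 : ((3 : ℝ) ^ (x + 1 / 2)) ^ 2 = 3 * Real.exp (2 * Real.log 3 * x) := by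
    rw [← Real.rpow_natCast, ← Real.rpow_mul (by norm_num), Nat.cast_ofNat,
      show (x + 1 / 2) * 2 = 1 + 2 * x by ring, Real.rpow_add (by norm_num), Real.rpow_one,
      Real.rpow_def_of_pos (by norm_num)]
    congr 2
    ring
  rw [e1]
  have hl : 1 ≤ Real.log 3 := by
    rw [Real.le_log_iff_exp_le (by norm_num)]
    exact (Real.exp_one_lt_d9.trans (by norm_num)).le
  have h2 : Real.exp (2 * x) ≤ Real.exp (2 * Real.log 3 * x) := by
    apply Real.exp_le_exp.mpr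
    nlinarith
  have h3 := Real.quadratic_le_exp_of_nonneg (x := 2 * x) (by positivity)
  nlinarith

/-- the closed discs are zero-free -/
theorem zero_free {c : ℝ} (h1 : 1 / 2 < c) (h2 : c ≤ 45) :
    ∀ z ∈ Metric.closedBall (c : ℂ) (c - 1 / 2), Lf z ≠ 0 := by
  intro z hz
  rw [Metric.mem_closedBall, dist_eq_norm] at hz
  have hsq : ‖z - c‖ ^ 2 ≤ (c - 1 / 2) ^ 2 := pow_le_pow_left₀ (norm_nonneg _) hz 2
  rw [Complex.sq_norm, Complex.normSq_apply] at hsq
  simp only [Complex.sub_re, Complex.sub_im, Complex.ofReal_re, Complex.ofReal_im, sub_zero] at hsq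
  have hre : 1 / 2 ≤ z.re := by
    have h3 : |(z - c).re| ≤ ‖z - c‖ := Complex.abs_re_le_norm _
    have h4 := neg_abs_le (z - c).re
    simp only [Complex.sub_re, Complex.ofReal_re] at h3 h4
    linarith
  set x : ℝ := z.re - 1 / 2 with hx
  have hx0 : 0 ≤ x := by linarith
  have hzx : z.re = x + 1 / 2 := by rw [hx]; ring
  have hn : ‖z‖ ^ 2 ≤ 2 * c * x + 1 / 4 := by
    rw [Complex.sq_norm, Complex.normSq_apply]
    nlinarith
  apply ne_zero_of_norm_lt (by linarith)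
  have h9 := nine_bound hx0
  have hpos : 0 ≤ 3 * z.re * (3 : ℝ) ^ z.re := by positivity
  refine lt_of_pow_lt_pow_left₀ 2 hpos ?_
  rw [mul_pow, hzx]
  have h10 : (3 * (x + 1 / 2)) ^ 2 * (3 * (1 + 2 * x + 2 * x ^ 2)) ≤
      (3 * (x + 1 / 2)) ^ 2 * ((3 : ℝ) ^ (x + 1 / 2)) ^ 2 :=
    mul_le_mul_of_nonneg_left h9 (by positivity)
  refine lt_of_lt_of_le ?_ h10
  have h11 : 2 * c * x ≤ 90 * x := by nlinarith
  nlinarith [sq_nonneg (x - 1 / 4), pow_nonneg hx0 3, pow_nonneg hx0 4, sq_nonneg (189 * x - 49.5)]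

theorem caseA {c : ℝ} (h1 : 1 / 2 < c) (h2 : c ≤ 45) : CaseA c :=
  caseA_of_closedBall (zero_free h1 h2)

end Pool.OMM
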