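import Pool.Agent.OMG.CaseA
import Pool.Agent.OMG.Int
import Pool.Agent.Helper76.OMM.Zfd

/-!
# OMM UNI: the means with weights `(log x)^k x^(-s-1)`, uniformly in `1 < s <= 45`
-/

set_option autoImplicit false

open Complex Finset Filter Topology MeasureTheory

namespace Pool.OMM

open Pool.OMG

/-- `caseA_asy` for `G = L(s)/s` -/
theorem J_tendsto {s0 : ℝ} (h1 : 1 < s0) (hA : CaseA s0) :
    Tendsto (fun k : ℕ => (k : ℝ) * (s0 - 1 / 2) ^ k * J s0 k) atTop (𝓝 (-Lhalf)) := by
  have hs0 : (0 : ℝ) < s0 := by linarith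
  have hG : DifferentiableOn ℂ (fun s => Lf s / s) (Metric.ball (s0 : ℂ) s0) := by
    intro s hs
    have hne : s ≠ 0 := by
      rintro rfl
      rw [Metric.mem_ball, dist_comm, dist_eq_norm, sub_zero, Complex.norm_real,
        Real.norm_eq_abs, abs_of_pos hs0] at hs
      exact lt_irrefl _ hs
    exact ((Lf_differentiable s).div differentiableAt_id hne).differentiableWithinAt
  have h := caseA_asy h1 hA (fun s => Lf s / s) s0 (by linarith) hG
  have hG2 : -((fun s => Lf s / s) (1 / 2 : ℂ)) / 2 = ((-Lhalf : ℝ) : ℂ) := by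
    simp only [Lf_half]
    push_cast
    field_simp
  rw [hG2] at h
  have hopen : {s : ℂ | 1 < s.re} ∈ 𝓝 (s0 : ℂ) := by
    apply (isOpen_lt continuous_const Complex.continuous_re).mem_nhds
    simpa using h1
  have hT : T (s0 : ℂ) (fun s => Lf s / s) * T (s0 : ℂ) P = T (s0 : ℂ) (fun s => F s / s) := by
    rw [← T_mul]
    · apply T_congr
      filter_upwards [hopen] with s hs
      rw [F_eq hs]
      ring
    · apply DifferentiableOn.analyticAt (s := Metric.ball (s0 : ℂ) s0) hG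
      exact Metric.isOpen_ball.mem_nhds (Metric.mem_ball_self hs0)
    · exact P_differentiable.analyticAt hopen
  rw [hT] at h
  have h2 := (Complex.continuous_re.tendsto _).comp h
  rw [Complex.ofReal_re] at h2
  refine h2.congr fun k => ?_
  simp only [Function.comp_apply]
  rw [← J_eq h1 k]
  have : ((k : ℂ) * (J s0 k : ℂ) * ((s0 : ℂ) - 1 / 2) ^ k) =
      (((k : ℝ) * (s0 - 1 / 2) ^ k * J s0 k : ℝ) : ℂ) := by
    push_cast
    ring
  rw [this, Complex.ofReal_re]

private theorem integrand_eq (s v : ℝ) (k j : ℕ) (y : ℝ) :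
    A (Real.exp y) * Real.exp (-s * y) * y ^ (k + j) / ((k + j).factorial : ℝ) *
      (((k + j).choose k : ℝ) * v ^ j) =
    A (Real.exp y) * Real.exp (-s * y) * y ^ k / (k.factorial : ℝ) *
      ((v * y) ^ j / (j.factorial : ℝ)) := by
  have h1 : (((k + j).choose k : ℕ) : ℝ) * (k.factorial : ℝ) * (j.factorial : ℝ) =
      ((k + j).factorial : ℝ) := by
    have := Nat.choose_mul_factorial_mul_factorial (Nat.le_add_right k j)
    rw [Nat.add_sub_cancel_left] at this
    exact_mod_cast this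
  have hk : (k.factorial : ℝ) ≠ 0 := by exact_mod_cast k.factorial_ne_zero
  have hj : (j.factorial : ℝ) ≠ 0 := by exact_mod_cast j.factorial_ne_zero
  have hkj : ((k + j).factorial : ℝ) ≠ 0 := by exact_mod_cast (k + j).factorial_ne_zero
  rw [mul_pow, pow_add]
  field_simp
  rw [← h1]
  ring

/-- moving the centre from `s` to `s - v` -/
theorem J_shift {s v : ℝ} (hv0 : 0 ≤ v) (hv : v < s - 1) (k : ℕ) :
    HasSum (fun j : ℕ => J s (k + j) * (((k + j).choose k : ℝ) * v ^ j)) (J (s - v) k) := by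
  have hs : 1 < s := by linarith
  have hsv : 1 < s - v := by linarith
  have hint : ∀ j : ℕ, Integrable (fun y : ℝ => A (Real.exp y) * Real.exp (-s * y) * y ^ (k + j) /
      ((k + j).factorial : ℝ) * (((k + j).choose k : ℝ) * v ^ j)) (volume.restrict (Set.Ioi 0)) :=
    fun j => (J_integrable hs (k + j)).mul_const _
  have hI := (J_integrable hsv k).norm
  have hsumm : Summable fun j : ℕ => ∫ y in Set.Ioi (0 : ℝ),
      ‖A (Real.exp y) * Real.exp (-s * y) * y ^ (k + j) /
      ((k + j).factorial : ℝ) * (((k + j).choose k : ℝ) * v ^ j)‖ := by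
    refine summable_of_sum_le (c := ∫ y in Set.Ioi (0 : ℝ),
      ‖A (Real.exp y) * Real.exp (-(s - v) * y) * y ^ k / (k.factorial : ℝ)‖)
      (fun k => integral_nonneg fun y => norm_nonneg _) ?_
    intro S
    rw [← integral_finsetSum S (fun j _ => (hint j).norm)]
    refine setIntegral_mono_on (integrable_finsetSum S fun j _ => (hint j).norm) hI
      measurableSet_Ioi ?_
    intro y hy
    have hy0 : 0 < y := hy
    simp only [integrand_eq]
    have hterm : ∀ j : ℕ, ‖A (Real.exp y) * Real.exp (-s * y) * y ^ k / (k.factorial : ℝ) *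
      ((v * y) ^ j / (j.factorial : ℝ))‖ =
      ‖A (Real.exp y) * Real.exp (-s * y) * y ^ k / (k.factorial : ℝ)‖ *
        ((v * y) ^ j / (j.factorial : ℝ)) := by
      intro j
      rw [norm_mul, Real.norm_of_nonneg (r := (v * y) ^ j / (j.factorial : ℝ)) (by positivity)]
    simp only [hterm]
    rw [← Finset.mul_sum]
    have hexp : ‖A (Real.exp y) * Real.exp (-(s - v) * y) * y ^ k / (k.factorial : ℝ)‖ =
        ‖A (Real.exp y) * Real.exp (-s * y) * y ^ k / (k.factorial : ℝ)‖ * Real.exp (v * y) := by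
      have e : A (Real.exp y) * Real.exp (-(s - v) * y) * y ^ k / (k.factorial : ℝ) =
          A (Real.exp y) * Real.exp (-s * y) * y ^ k / (k.factorial : ℝ) * Real.exp (v * y) := by
        rw [show -(s - v) * y = -s * y + v * y by ring, Real.exp_add]
        ring
      rw [e, norm_mul, Real.norm_of_nonneg (Real.exp_pos _).le]
    rw [hexp]
    refine mul_le_mul_of_nonneg_left ?_ (norm_nonneg _)
    have hs := NormedSpace.expSeries_div_hasSum_exp (v * y)
    rw [← Real.exp_eq_exp_ℝ] at hs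
    exact sum_le_hasSum S (fun j _ => by positivity) hs
  have hsum := hasSum_integral_of_summable_integral_norm hint hsumm
  have e1 : ∀ j : ℕ, ∫ y in Set.Ioi (0 : ℝ), A (Real.exp y) * Real.exp (-s * y) * y ^ (k + j) /
      ((k + j).factorial : ℝ) * (((k + j).choose k : ℝ) * v ^ j) =
      J s (k + j) * (((k + j).choose k : ℝ) * v ^ j) := by
    intro j
    rw [integral_mul_const]
    rfl
  have e2 : ∫ y in Set.Ioi (0 : ℝ), (∑' j : ℕ, A (Real.exp y) * Real.exp (-s * y) * y ^ (k + j) /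
      ((k + j).factorial : ℝ) * (((k + j).choose k : ℝ) * v ^ j)) = J (s - v) k := by
    unfold J
    refine setIntegral_congr_fun measurableSet_Ioi ?_
    intro y _
    simp only [integrand_eq]
    rw [tsum_mul_left]
    have h4 := (NormedSpace.expSeries_div_hasSum_exp (v * y)).tsum_eq
    rw [← Real.exp_eq_exp_ℝ] at h4
    rw [h4, show -(s - v) * y = -s * y + v * y by ring, Real.exp_add]
    ring
  rw [e2] at hsum
  simp only [e1] at hsum
  exact hsum

/-- the uniform transfer -/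
theorem J_uniform_aux {s ε : ℝ} (hs : 1 < s) {K : ℕ}
    (hK : ∀ k : ℕ, K ≤ k → |(k : ℝ) * (s - 1 / 2) ^ k * J s k + Lhalf| ≤ ε)
    {v : ℝ} (hv0 : 0 ≤ v) (hv : v < s - 1) (m : ℕ) (hm : K ≤ m + 1) :
    |J (s - v) (m + 1) + Lhalf / (((m : ℝ) + 1) * (s - v - 1 / 2) ^ (m + 1))| ≤
      ε / (((m : ℝ) + 1) * (s - v - 1 / 2) ^ (m + 1)) := by
  set r : ℝ := s - 1 / 2 with hr
  have hr0 : 0 < r := by rw [hr]; linarith
  have hrv : 0 < r - v := by rw [hr]; linarith
  have hx : ‖v / r‖ < 1 := by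
    rw [Real.norm_of_nonneg (by positivity), div_lt_one hr0]
    linarith
  have hgeo := hasSum_choose_mul_geometric_of_norm_lt_one m hx
  have hm1 : (0 : ℝ) < (m : ℝ) + 1 := by positivity
  have hc : 1 / (1 - v / r) ^ (m + 1) * (1 / (((m : ℝ) + 1) * r ^ (m + 1))) =
      1 / (((m : ℝ) + 1) * (r - v) ^ (m + 1)) := by
    have : 1 - v / r = (r - v) / r := by field_simp
    rw [this, div_pow]
    have h1 : (r - v) ^ (m + 1) ≠ 0 := (pow_pos hrv _).ne'
    have h2 : r ^ (m + 1) ≠ 0 := (pow_pos hr0 _).ne'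
    field_simp
  have hgeo2 := hgeo.mul_right (1 / (((m : ℝ) + 1) * r ^ (m + 1)))
  rw [hc] at hgeo2
  have hJ := (J_shift hv0 hv (m + 1)).add (hgeo2.mul_left Lhalf)
  have hb : ∀ j : ℕ, ‖J s (m + 1 + j) * (((m + 1 + j).choose (m + 1) : ℝ) * v ^ j) +
      Lhalf * (((j + m).choose m : ℝ) * (v / r) ^ j * (1 / (((m : ℝ) + 1) * r ^ (m + 1))))‖ ≤
      ε * (((j + m).choose m : ℝ) * (v / r) ^ j * (1 / (((m : ℝ) + 1) * r ^ (m + 1)))) := by
    intro j
    have hch : ((m + 1 + j).choose (m + 1) : ℝ) * ((m : ℝ) + 1) =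
        ((m : ℝ) + 1 + j) * ((j + m).choose m : ℝ) := by
      have := Nat.add_one_mul_choose_eq (j + m) m
      rw [show m + 1 + j = j + m + 1 by ring]
      have h2 : (((j + m + 1) * (j + m).choose m : ℕ) : ℝ) =
        (((j + m + 1).choose (m + 1) * (m + 1) : ℕ) : ℝ) := by exact_mod_cast this
      push_cast at h2
      linarith
    have hn : (0 : ℝ) < (m : ℝ) + 1 + j := by positivity
    have e : J s (m + 1 + j) * (((m + 1 + j).choose (m + 1) : ℝ) * v ^ j) +
      Lhalf * (((j + m).choose m : ℝ) * (v / r) ^ j * (1 / (((m : ℝ) + 1) * r ^ (m + 1)))) =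
      (((m + 1 + j : ℕ) : ℝ) * r ^ (m + 1 + j) * J s (m + 1 + j) + Lhalf) *
        (((j + m).choose m : ℝ) * (v / r) ^ j * (1 / (((m : ℝ) + 1) * r ^ (m + 1)))) := by
      have hch' : ((m + 1 + j).choose (m + 1) : ℝ) =
        ((m : ℝ) + 1 + j) * ((j + m).choose m : ℝ) / ((m : ℝ) + 1) := by
        rw [← hch]; field_simp
      rw [hch', add_mul, pow_add, div_pow]
      push_cast
      field_simp
      ring
    rw [e, norm_mul, Real.norm_of_nonneg (r := ((j + m).choose m : ℝ) * (v / r) ^ j *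
      (1 / (((m : ℝ) + 1) * r ^ (m + 1)))) (by positivity)]
    refine mul_le_mul_of_nonneg_right ?_ (by positivity)
    rw [Real.norm_eq_abs]
    exact hK (m + 1 + j) (by omega)
  have h := tsum_of_norm_bounded (hgeo2.mul_left ε) hb
  rw [hJ.tsum_eq, Real.norm_eq_abs] at h
  rw [show s - v - 1 / 2 = r - v by rw [hr]; ring]
  calc _ = |J (s - v) (m + 1) + Lhalf * (1 / (((m : ℝ) + 1) * (r - v) ^ (m + 1)))| := by
        congr 2; ring
    _ ≤ _ := h
    _ = _ := by ring

/-- change of variables -/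
theorem mean_eq (s : ℝ) (k : ℕ) :
    ∫ x in Set.Ioi (1 : ℝ), (S 3 x - S 1 x) * Real.log x ^ k * x ^ (-s - 1) =
      -((k.factorial : ℝ) * J s k) := by
  have himg : Real.exp '' Set.Ioi 0 = Set.Ioi 1 := by
    ext t
    constructor
    · rintro ⟨y, hy, rfl⟩
      exact Real.one_lt_exp_iff.2 hy
    · intro ht
      have ht1 : (1 : ℝ) < t := ht
      exact ⟨Real.log t, Real.log_pos ht1, Real.exp_log (by linarith)⟩
  rw [← himg, integral_image_eq_integral_abs_deriv_smul measurableSet_Ioi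
    (fun x _ => (Real.hasDerivAt_exp x).hasDerivWithinAt) (Real.exp_injective.injOn)]
  unfold J
  rw [← integral_const_mul, ← integral_neg]
  refine setIntegral_congr_fun measurableSet_Ioi ?_
  intro y _
  simp only
  rw [Real.abs_exp, smul_eq_mul, Real.log_exp, ← Real.exp_mul]
  have hk : (k.factorial : ℝ) ≠ 0 := by exact_mod_cast k.factorial_ne_zero
  have e : Real.exp y * ((S 3 (Real.exp y) - S 1 (Real.exp y)) * y ^ k *
      Real.exp (y * (-s - 1))) = (S 3 (Real.exp y) - S 1 (Real.exp y)) * y ^ k *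
      Real.exp (-s * y) := by
    rw [show -s * y = y + y * (-s - 1) by ring, Real.exp_add]
    ring
  rw [e]
  unfold A
  field_simp
  ring

/-- the main theorem -/
theorem main (ε : ℝ) (hε : 0 < ε) : ∃ K : ℕ, ∀ k : ℕ, K ≤ k → ∀ s : ℝ, 1 < s → s ≤ 45 →
    |(∫ x in Set.Ioi (1 : ℝ), (S 3 x - S 1 x) * Real.log x ^ k * x ^ (-s - 1)) -
      Lhalf * (((k - 1).factorial : ℝ) / (s - 1 / 2) ^ k)| ≤
      ε * (((k - 1).factorial : ℝ) / (s - 1 / 2) ^ k) := by
  have h45 := J_tendsto (s0 := 45) (by norm_num) (caseA (by norm_num) le_rfl)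
  have h2 := (tendsto_iff_norm_sub_tendsto_zero.mp h45).eventually (gt_mem_nhds hε)
  obtain ⟨K, hK⟩ := Filter.eventually_atTop.mp h2
  refine ⟨K + 1, fun k hk s hs1 hs2 => ?_⟩
  obtain ⟨m, rfl⟩ : ∃ m, k = m + 1 := ⟨k - 1, by omega⟩
  have hm : K ≤ m + 1 := by omega
  have h3 := J_uniform_aux (s := 45) (ε := ε) (by norm_num) (K := K) (fun k hk => by
    have := (hK k hk).le
    rw [Real.norm_eq_abs, sub_neg_eq_add] at this
    exact this) (v := 45 - s) (by linarith) (by linarith) m hm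
  rw [show (45 : ℝ) - (45 - s) = s by ring] at h3
  rw [mean_eq, Nat.add_sub_cancel]
  have hr : 0 < s - 1 / 2 := by linarith
  have hm1 : (0 : ℝ) < (m : ℝ) + 1 := by positivity
  have hf : (((m + 1).factorial : ℕ) : ℝ) = ((m : ℝ) + 1) * (m.factorial : ℝ) := by
    rw [Nat.factorial_succ]; push_cast; ring
  have hf0 : (0 : ℝ) < (((m + 1).factorial : ℕ) : ℝ) := by exact_mod_cast (m + 1).factorial_pos
  have hp : (0 : ℝ) < (s - 1 / 2) ^ (m + 1) := pow_pos hr _
  have e1 : -((((m + 1).factorial : ℕ) : ℝ) * J s (m + 1)) -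
      Lhalf * ((m.factorial : ℝ) / (s - 1 / 2) ^ (m + 1)) =
      -((((m + 1).factorial : ℕ) : ℝ) *
        (J s (m + 1) + Lhalf / (((m : ℝ) + 1) * (s - 1 / 2) ^ (m + 1)))) := by
    rw [hf]
    field_simp
    ring
  rw [e1, abs_neg, abs_mul, abs_of_pos hf0]
  refine (mul_le_mul_of_nonneg_left h3 hf0.le).trans (le_of_eq ?_)
  rw [hf]
  field_simp

end Pool.OMM
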