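import Pool.Agent.OMG.Osc
import Pool.Agent.OMG.CaseB
import Pool.Agent.Helper76.OMM.Uni
import Pool.Agent.Helper76.OMM.DefsG

/-!
# OMM GRH: `S_1 < S_3` for large `x`, or in the weighted means, and the Riemann hypothesis for
# `L(s, chi_-4)`
-/

set_option autoImplicit false

open Complex Finset Filter Topology MeasureTheory

namespace Pool.OMM

open Pool.OMG

theorem grh_caseA (h : GRH) (s0 : ℝ) : CaseA s0 := by
  apply caseA_of_closedBall
  intro s hs
  rw [Metric.mem_closedBall, dist_eq_norm] at hs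
  have hsq : ‖s - s0‖ ^ 2 ≤ (s0 - 1 / 2) ^ 2 := pow_le_pow_left₀ (norm_nonneg _) hs 2
  rw [Complex.sq_norm, Complex.normSq_apply] at hsq
  simp only [Complex.sub_re, Complex.sub_im, Complex.ofReal_re, Complex.ofReal_im, sub_zero] at hsq
  have hre : 1 / 2 ≤ s.re := by
    have h3 : |(s - s0).re| ≤ ‖s - s0‖ := Complex.abs_re_le_norm _
    have h4 := neg_abs_le (s - s0).re
    simp only [Complex.sub_re, Complex.ofReal_re] at h3 h4
    linarith
  rcases hre.eq_or_lt with h1 | h1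
  · have him : s.im = 0 := by
      rw [← h1] at hsq
      nlinarith [sq_nonneg s.im]
    have hs : s = 1 / 2 := Complex.ext (by rw [← h1]; norm_num) (by rw [him]; norm_num)
    rw [hs, Lf_half]
    exact_mod_cast Lhalf_pos.ne'
  · exact h s h1

theorem not_grh_caseB (h : ¬ GRH) : ∃ s0 : ℝ, 1 < s0 ∧ CaseB s0 := by
  unfold GRH at h
  push Not at h
  obtain ⟨ρ, hρ, hz⟩ := h
  have hd : 0 < 2 * ρ.re - 1 := by linarith
  obtain ⟨s0, hs0, hc⟩ := cases_exist (max 1 ((ρ.re ^ 2 + ρ.im ^ 2) / (2 * ρ.re - 1)))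
  have h1 : 1 < s0 := lt_of_le_of_lt (le_max_left _ _) hs0
  have h2 : (ρ.re ^ 2 + ρ.im ^ 2) / (2 * ρ.re - 1) < s0 := lt_of_le_of_lt (le_max_right _ _) hs0
  rw [div_lt_iff₀ hd] at h2
  refine ⟨s0, h1, ?_⟩
  rcases hc with hA | hB
  · exfalso
    obtain ⟨R1, hR1, hfree⟩ := hA
    refine hfree ρ ?_ hz
    rw [Metric.mem_ball, dist_eq_norm]
    refine lt_of_le_of_lt ?_ hR1
    apply le_of_sq_le_sq _ (by linarith)
    rw [Complex.sq_norm, Complex.normSq_apply]
    simp only [Complex.sub_re, Complex.sub_im, Complex.ofReal_re, Complex.ofReal_im, sub_zero]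
    nlinarith
  · exact hB

/-- in Case B the averages `J_k` are positive and large infinitely often -/
theorem caseB_pos {s0 : ℝ} (h1 : 1 < s0) (hB : CaseB s0) :
    ∃ (m : ℕ) (R0 δ : ℝ), 0 < R0 ∧ R0 < s0 - 1 / 2 ∧ 0 < δ ∧
      ∀ K : ℕ, ∃ k : ℕ, K ≤ k ∧ δ ≤ (k : ℝ) ^ m * J s0 k * R0 ^ k := by
  obtain ⟨m, R0, C, w, hR0, hR0r, hC, hw, hw2, ht⟩ := caseB_asy h1 hB
  obtain ⟨η2, hη2, N2, hN2⟩ := cos_gap' hC hw hw2
  obtain ⟨K1, hK1⟩ := (Metric.tendsto_atTop.1 ht) (η2 / 2) (by positivity)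
  refine ⟨m, R0, η2 / 2, hR0, hR0r, by positivity, fun K => ?_⟩
  obtain ⟨k, b1, _, b3⟩ := hN2 (max K K1)
  refine ⟨k, (le_max_left _ _).trans b1, ?_⟩
  have a1 := hK1 k ((le_max_right _ _).trans b1)
  rw [Real.dist_eq, sub_zero, abs_lt] at a1
  linarith [a1.1]

private theorem exp_int {b : ℝ} (hb : 0 < b) (k : ℕ) :
    ∫ y in Set.Ioi (0 : ℝ), y ^ k * Real.exp (-(b * y)) = (k.factorial : ℝ) / b ^ (k + 1) := by
  have h := Real.integral_rpow_mul_exp_neg_mul_Ioi (a := (k : ℝ) + 1) (r := b) (by positivity) hb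
  rw [Real.Gamma_nat_eq_factorial, add_sub_cancel_right] at h
  simp only [Real.rpow_natCast] at h
  rw [h]
  have : (1 / b) ^ ((k : ℝ) + 1) = 1 / b ^ (k + 1) := by
    have h2 : ((k : ℝ) + 1) = ((k + 1 : ℕ) : ℝ) := by push_cast; ring
    rw [h2, Real.rpow_natCast, one_div_pow]
  rw [this]
  ring

/-- a one-sided bound for `A(e^y)` gives a one-sided bound for the averages -/
theorem J_upper {s0 r C x0 : ℝ} (hr : 0 ≤ r) (hrs : r < s0) (h1 : 1 < s0)
    (h : ∀ x : ℝ, x0 ≤ x → A x ≤ C * x ^ r) :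
    ∃ D : ℝ, ∀ k : ℕ, J s0 k ≤ D * (1 / (s0 - r)) ^ k := by
  set x1 : ℝ := max x0 1 with hx1
  have hx1' : 1 ≤ x1 := le_max_right _ _
  set C2 : ℝ := |C| + 2 * (1 + x1) * x1 with hC2
  have hC20 : 0 ≤ C2 := by positivity
  have hsr : 0 < s0 - r := by linarith
  have hbd : ∀ y : ℝ, 0 ≤ y → A (Real.exp y) ≤ C2 * Real.exp (r * y) := by
    intro y hy
    have h3 : 1 ≤ Real.exp (r * y) := Real.one_le_exp (by positivity)
    rcases le_or_gt x0 (Real.exp y) with h4 | h4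
    · have h5 := h _ h4
      rw [← Real.exp_mul, mul_comm y r] at h5
      refine h5.trans ?_
      apply mul_le_mul_of_nonneg_right _ (Real.exp_pos _).le
      have := le_abs_self C
      have : 0 ≤ 2 * (1 + x1) * x1 := by positivity
      linarith
    · have h5 := (le_abs_self _).trans (A_bound hy)
      have h6 : Real.exp y ≤ x1 := h4.le.trans (le_max_left _ _)
      have h7 : y ≤ x1 := by
        have := Real.add_one_le_exp y
        linarith
      have h8 : 2 * (1 + y) * Real.exp y ≤ 2 * (1 + x1) * x1 := by gcongr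
      have h9 : C2 * 1 ≤ C2 * Real.exp (r * y) := mul_le_mul_of_nonneg_left h3 hC20
      have h10 : 0 ≤ |C| := abs_nonneg C
      linarith
  refine ⟨C2 * (1 / (s0 - r)), fun k => ?_⟩
  have hk : (0 : ℝ) < (k.factorial : ℝ) := by exact_mod_cast k.factorial_pos
  have hint : IntegrableOn (fun y : ℝ => C2 / (k.factorial : ℝ) *
      (y ^ k * Real.exp (-((s0 - r) * y)))) (Set.Ioi 0) := by
    refine Integrable.const_mul ?_ _
    have h1 := integrableOn_rpow_mul_exp_neg_mul_rpow (p := 1) (s := (k : ℝ)) (b := s0 - r)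
      (by have : (0 : ℝ) ≤ k := Nat.cast_nonneg k
          linarith) one_pos hsr
    refine h1.congr_fun ?_ measurableSet_Ioi
    intro y _
    simp only [Real.rpow_natCast, Real.rpow_one, neg_mul]
  have hmono : J s0 k ≤ ∫ y in Set.Ioi (0 : ℝ), C2 / (k.factorial : ℝ) *
      (y ^ k * Real.exp (-((s0 - r) * y))) := by
    unfold J
    refine setIntegral_mono_on (J_integrable h1 k) hint measurableSet_Ioi ?_
    intro y hy
    have hy0 : 0 < y := hy
    have h2 := hbd y hy0.le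
    have e : Real.exp (-((s0 - r) * y)) = Real.exp (r * y) * Real.exp (-s0 * y) := by
      rw [← Real.exp_add]; congr 1; ring
    calc A (Real.exp y) * Real.exp (-s0 * y) * y ^ k / (k.factorial : ℝ) ≤
        (C2 * Real.exp (r * y)) * Real.exp (-s0 * y) * y ^ k / (k.factorial : ℝ) := by
          gcongr
      _ = _ := by rw [e]; ring
  rw [integral_const_mul, exp_int hsr] at hmono
  refine hmono.trans (le_of_eq ?_)
  rw [one_div_pow, pow_succ]
  field_simp

/-- the one-sided bound with all exponents above `1/2` implies the Riemann hypothesis -/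
theorem grh_of_one_sided (h : ∀ ε : ℝ, 0 < ε → ∃ C x0 : ℝ, ∀ x : ℝ, x0 ≤ x →
    S 1 x - S 3 x ≤ C * x ^ (1 / 2 + ε)) : GRH := by
  by_contra hG
  obtain ⟨s0, h1, hB⟩ := not_grh_caseB hG
  obtain ⟨m, R0, δ, hR0, hR0r, hδ, hk⟩ := caseB_pos h1 hB
  set ε : ℝ := (s0 - 1 / 2 - R0) / 2 with hε
  have hε0 : 0 < ε := by rw [hε]; linarith
  obtain ⟨C, x0, hC⟩ := h ε hε0
  obtain ⟨D, hD⟩ := J_upper (s0 := s0) (r := 1 / 2 + ε) (C := C) (x0 := x0) (by linarith)
    (by rw [hε]; linarith) h1 (fun x hx => hC x hx)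
  set R : ℝ := s0 - (1 / 2 + ε) with hR
  have hRR : R0 < R := by rw [hR, hε]; linarith
  have hR0' : 0 < R := hR0.trans hRR
  -- `D k^m (R0/R)^k -> 0`
  have hq : 1 < R / R0 := (one_lt_div hR0).2 hRR
  have ht := (tendsto_pow_const_div_const_pow_of_one_lt m hq).const_mul D
  rw [mul_zero] at ht
  obtain ⟨K, hK⟩ := eventually_atTop.1 ((tendsto_order.1 ht).2 δ hδ)
  obtain ⟨k, hk1, hk2⟩ := hk K
  have h3 := hK k hk1
  have h4 : (k : ℝ) ^ m * J s0 k * R0 ^ k ≤ D * ((k : ℝ) ^ m / (R / R0) ^ k) := by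
    have h5 : (k : ℝ) ^ m * J s0 k * R0 ^ k ≤ (k : ℝ) ^ m * (D * (1 / R) ^ k) * R0 ^ k := by
      have := hD k
      gcongr
    refine h5.trans (le_of_eq ?_)
    have h6 : (R / R0) ^ k = R ^ k / R0 ^ k := div_pow _ _ _
    have h7 : (1 / R) ^ k = 1 / R ^ k := one_div_pow _ _
    rw [h6, h7]
    field_simp
  linarith

theorem grh_of_pos (h : ∀ s : ℝ, 1 < s → ∀ᶠ k : ℕ in atTop, 0 < Mn s k) : GRH := by
  by_contra hG
  obtain ⟨s0, h1, hB⟩ := not_grh_caseB hG
  obtain ⟨m, R0, δ, hR0, hR0r, hδ, hk⟩ := caseB_pos h1 hB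
  obtain ⟨K, hK⟩ := eventually_atTop.1 (h s0 h1)
  obtain ⟨k, hk1, hk2⟩ := hk K
  have h3 := hK k hk1
  unfold Mn at h3
  rw [mean_eq] at h3
  have hkf : (0 : ℝ) < (k.factorial : ℝ) := by exact_mod_cast k.factorial_pos
  have hJ : J s0 k < 0 := by
    by_contra hJ
    push Not at hJ
    have : 0 ≤ (k.factorial : ℝ) * J s0 k := by positivity
    linarith
  have h4 : (k : ℝ) ^ m * J s0 k * R0 ^ k ≤ 0 := by
    have h5 : (k : ℝ) ^ m * J s0 k ≤ 0 := mul_nonpos_of_nonneg_of_nonpos (by positivity) hJ.le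
    exact mul_nonpos_of_nonpos_of_nonneg h5 (by positivity)
  linarith

theorem asy_of_grh (h : GRH) (s : ℝ) (hs : 1 < s) :
    Tendsto (fun k : ℕ => Mn s k / (((k - 1).factorial : ℝ) / (s - 1 / 2) ^ k)) atTop
      (𝓝 Lhalf) := by
  have h1 := (J_tendsto hs (grh_caseA h s)).neg
  rw [neg_neg] at h1
  refine h1.congr' ?_
  filter_upwards [eventually_ge_atTop 1] with k hk
  obtain ⟨n, rfl⟩ : ∃ n, k = n + 1 := ⟨k - 1, by omega⟩
  unfold Mn
  rw [mean_eq, Nat.add_sub_cancel, Nat.factorial_succ]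
  have hr : 0 < s - 1 / 2 := by linarith
  have hf0 : (0 : ℝ) < (n.factorial : ℝ) := by exact_mod_cast n.factorial_pos
  push_cast
  field_simp

theorem pos_of_asy {s : ℝ} (hs : 1 < s)
    (h : Tendsto (fun k : ℕ => Mn s k / (((k - 1).factorial : ℝ) / (s - 1 / 2) ^ k)) atTop
      (𝓝 Lhalf)) : ∀ᶠ k : ℕ in atTop, 0 < Mn s k := by
  filter_upwards [(tendsto_order.1 h).1 0 Lhalf_pos] with k hk
  have hr : 0 < s - 1 / 2 := by linarith
  have hf0 : (0 : ℝ) < (((k - 1).factorial : ℕ) : ℝ) := by exact_mod_cast (k - 1).factorial_pos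
  have hd : 0 < ((k - 1).factorial : ℝ) / (s - 1 / 2) ^ k := by positivity
  by_contra hc
  push Not at hc
  have := div_nonpos_of_nonpos_of_nonneg hc hd.le
  linarith

end Pool.OMM
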